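import Pool.Agent.Helper82.PN.Goals

/-!
# Project PN (MP_6fb600_gt), packet GI
-/

set_option autoImplicit false

open MeasureTheory Set
open scoped ENNReal
open Pool.Agent.Helper47.AQ Pool.Agent.Helper82.PN

noncomputable section

namespace Pool.Agent.Helper19.PN

theorem wd_neg' {ι : Type} [Fintype ι] (K : Set (ι → ℝ)) (p : ι → ℝ) : wd K (-p) = wd K p := by
  unfold wd
  rw [neg_neg, add_comm]

/-- the slice integral -/
def Gs {m : ℕ} (K : Set (Fin (m + 1) → ℝ)) (r : ℝ) : ℝ≥0∞ :=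
  ∫⁻ ξ : Fin m → ℝ, ENNReal.ofReal (Real.exp (-(wd K (Fin.cons r ξ : Fin (m + 1) → ℝ))))

theorem Gs_neg {m : ℕ} (K : Set (Fin (m + 1) → ℝ)) (r : ℝ) : Gs K (-r) = Gs K r := by
  unfold Gs
  have h := lintegral_neg_eq_self (μ := (volume : Measure (Fin m → ℝ)))
    (fun ξ : Fin m → ℝ =>
    ENNReal.ofReal (Real.exp (-(wd K (Fin.cons (-r) ξ : Fin (m + 1) → ℝ)))))
  rw [← h]
  congr 1
  funext ξ
  congr 3
  rw [← wd_neg' K (Fin.cons r ξ : Fin (m + 1) → ℝ)]
  congr 1
  funext i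
  refine Fin.cases ?_ (fun j => ?_) i
  · simp
  · simp

theorem split0 {m : ℕ} (F : (Fin (m + 1) → ℝ) → ℝ≥0∞) (hF : Measurable F) :
    ∫⁻ p, F p = ∫⁻ r : ℝ, ∫⁻ ξ : Fin m → ℝ, F (Fin.cons r ξ : Fin (m + 1) → ℝ) := by
  have h1 := (volume_preserving_piFinSuccAbove (fun _ : Fin (m + 1) => ℝ) 0).symm
  rw [← h1.lintegral_comp hF]
  have h2 : Measurable fun z : ℝ × (Fin m → ℝ) =>
      F ((MeasurableEquiv.piFinSuccAbove (fun _ : Fin (m + 1) => ℝ) 0).symm z) :=
    hF.comp (MeasurableEquiv.measurable _)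
  rw [Measure.volume_eq_prod, lintegral_prod _ h2.aemeasurable]
  refine lintegral_congr fun r => lintegral_congr fun ξ => ?_
  congr 1
  funext i
  simp [MeasurableEquiv.piFinSuccAbove, Fin.insertNthEquiv]

theorem gGI (hP : PFIN) : GI := by
  intro m K hK
  obtain ⟨-, ham, hfin, hapos, -⟩ := hP m K hK
  have hFm : Measurable fun p : Fin (m + 1) → ℝ => ENNReal.ofReal (Real.exp (-(wd K p))) :=
    (ENNReal.continuous_ofReal.comp (Real.continuous_exp.comp hK.wd_continuous.neg)).measurable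
  have h1 := split0 _ hFm
  rw [hK.laplace] at h1
  have h2 : ∀ r : ℝ, ∫⁻ ξ : Fin m → ℝ, ENNReal.ofReal (Real.exp (-(wd K
      (Fin.cons r ξ : Fin (m + 1) → ℝ)))) = Gs K r := fun r => rfl
  simp only [h2] at h1
  -- symmetry
  have h3 : ∫⁻ r : ℝ, Gs K r = 2 * ∫⁻ r in Ioi (0 : ℝ), Gs K r := by
    have e1 := lintegral_add_compl (μ := volume) (Gs K) (A := Ioi (0 : ℝ)) measurableSet_Ioi
    rw [← e1, two_mul]
    congr 1
    rw [compl_Ioi, ← restrict_Iio_eq_restrict_Iic]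
    have e2 := lintegral_image_eq_lintegral_abs_deriv_mul (s := Ioi (0 : ℝ)) (f := fun x => -x)
      (f' := fun _ => -1) measurableSet_Ioi
      (fun x _ => (hasDerivAt_neg x).hasDerivWithinAt) neg_injective.injOn (Gs K)
    have e3 : (fun x : ℝ => -x) '' Ioi 0 = Iio 0 := by
      rw [image_neg_eq_neg]
      simp
    rw [e3] at e2
    rw [e2]
    apply setLIntegral_congr_fun measurableSet_Ioi
    intro x _
    simp only [abs_neg, abs_one, ENNReal.ofReal_one, one_mul, Gs_neg]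
  have h4 : ∫⁻ r in Ioi (0 : ℝ), Gs K r = ∫⁻ s in Ioi (0 : ℝ), ENNReal.ofReal (aK K s ^ 2) := by
    have e2 := lintegral_image_eq_lintegral_abs_deriv_mul (s := Ioi (0 : ℝ)) (f := fun x => x⁻¹)
      (f' := fun x => -(x ^ 2)⁻¹) measurableSet_Ioi
      (fun x hx => (hasDerivAt_inv (ne_of_gt hx)).hasDerivWithinAt) inv_injective.injOn (Gs K)
    have e3 : (fun x : ℝ => x⁻¹) '' Ioi 0 = Ioi 0 := by
      ext y
      constructor
      · rintro ⟨x, hx, rfl⟩
        have hx' : (0 : ℝ) < x := hx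
        exact (inv_pos.mpr hx' : (0 : ℝ) < x⁻¹)
      · intro hy
        have hy' : (0 : ℝ) < y := hy
        exact ⟨y⁻¹, (inv_pos.mpr hy' : (0 : ℝ) < y⁻¹), inv_inv y⟩
    rw [e3] at e2
    rw [e2]
    apply setLIntegral_congr_fun measurableSet_Ioi
    intro s hs
    have hs0 : (0 : ℝ) < s := hs
    have e4 : Gs K s⁻¹ = Fi K s := by
      rw [inv_eq_one_div]
      rfl
    have e5 : Fi K s = ENNReal.ofReal (Fi K s).toReal :=
      (ENNReal.ofReal_toReal (hfin s hs0).2).symm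
    show ENNReal.ofReal |-(s ^ 2)⁻¹| * Gs K s⁻¹ = ENNReal.ofReal (aK K s ^ 2)
    rw [e4, e5, ← ENNReal.ofReal_mul (abs_nonneg _)]
    congr 1
    rw [abs_neg, abs_of_pos (by positivity)]
    unfold aK
    rw [div_pow, Real.sq_sqrt ENNReal.toReal_nonneg]
    field_simp
  rw [h3, h4, Fintype.card_fin] at h1
  have hne : ∫⁻ s in Ioi (0 : ℝ), ENNReal.ofReal (aK K s ^ 2) ≠ ⊤ := by
    intro htop
    rw [htop] at h1
    have h5 : (((m + 1).factorial : ℕ) : ℝ≥0∞) * volume (dpol K) ≠ ⊤ :=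
      ENNReal.mul_ne_top (ENNReal.natCast_ne_top _) hK.dpol_ne_top
    apply h5
    rw [h1]
    exact ENNReal.mul_top (by norm_num)
  have hsq : Measurable fun s => aK K s ^ 2 := ham.pow_const 2
  constructor
  · refine ⟨hsq.aestronglyMeasurable, ?_⟩
    rw [hasFiniteIntegral_iff_ofReal (Filter.Eventually.of_forall fun s => sq_nonneg _)]
    exact lt_of_le_of_ne le_top hne
  · rw [integral_eq_lintegral_of_nonneg_ae (Filter.Eventually.of_forall fun s => sq_nonneg _)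
      hsq.aestronglyMeasurable]
    have h5 := congrArg ENNReal.toReal h1
    rw [ENNReal.toReal_mul, ENNReal.toReal_mul, ENNReal.toReal_natCast, ENNReal.toReal_ofNat] at h5
    exact h5.symm

end Pool.Agent.Helper19.PN
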